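import Pool.Agent.H84.FD.S2

/-! # FD, row SPR: decided levels stay decided -/

set_option autoImplicit false

namespace Pool.FD
open Finset Pool.Agent.H24.FD

/-- **SPR.** -/
theorem spr : SPRStmt := by
  intro p m J u x η ξ hp hη hξ hS
  obtain ⟨h1, h2⟩ := hS
  obtain ⟨M, hM⟩ : ∃ M : ℕ, M = p ^ m := ⟨_, rfl⟩
  have hM0 : 0 < M := by rw [hM]; positivity
  rw [← hM] at h1 h2
  have e1 : (2 ^ u * x.1 + η) * 2 ^ J = x.1 * 2 ^ (J + u) + η * 2 ^ J := by ring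
  have e2 : (2 ^ u * x.2 + ξ) * 2 ^ J = x.2 * 2 ^ (J + u) + ξ * 2 ^ J := by ring
  have k1 : (η + 1) * 2 ^ J ≤ 2 ^ (J + u) := by
    rw [pow_add, mul_comm]
    exact Nat.mul_le_mul_left _ hη
  have k2 : (ξ + 1) * 2 ^ J ≤ 2 ^ (J + u) := by
    rw [pow_add, mul_comm]
    exact Nat.mul_le_mul_left _ hξ
  have hJ : 0 < 2 ^ J := by positivity
  have hB := Nat.mod_lt (x.2 * 2 ^ (J + u)) hM0
  have r1 : (x.1 * 2 ^ (J + u) + η * 2 ^ J) % M = x.1 * 2 ^ (J + u) % M + η * 2 ^ J := by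
    rw [← Nat.mod_add_mod]
    exact Nat.mod_eq_of_lt (by nlinarith)
  have r2 : (x.2 * 2 ^ (J + u) + ξ * 2 ^ J) % M = x.2 * 2 ^ (J + u) % M + ξ * 2 ^ J := by
    rw [← Nat.mod_add_mod]
    exact Nat.mod_eq_of_lt (by nlinarith)
  unfold Sure
  simp only
  rw [← hM, e1, e2, r1, r2]
  constructor
  · nlinarith [Nat.zero_le (ξ * 2 ^ J)]
  · nlinarith

end Pool.FD
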