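import Pool.Agent.H84.FD.S

/-! # FD, row EMX: mean of `max(1,U)^(-1/2)` from the layers -/

set_option autoImplicit false

namespace Pool.FD
open Finset

theorem emx_pt (n : ℕ) (N u : ℝ) (hN : 1 ≤ N) (hn2 : N < 2 ^ (n + 1)) :
    (max 1 u) ^ (-(1/2:ℝ)) ≤ N ^ (-(1/2:ℝ)) +
      ∑ j ∈ range (n + 2), if u < 2 ^ j then √2 * ((2:ℝ) ^ j) ^ (-(1/2:ℝ)) else 0 := by
  have hnn : ∀ j ∈ range (n + 2),
      0 ≤ (if u < 2 ^ j then √2 * ((2:ℝ) ^ j) ^ (-(1/2:ℝ)) else 0) := by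
    intro j _
    split_ifs
    · positivity
    · exact le_refl _
  have hN0 : 0 < N := by linarith
  have hNn : 0 ≤ N ^ (-(1/2:ℝ)) := (Real.rpow_pos_of_pos hN0 _).le
  by_cases h1 : u < 2 ^ (n + 1)
  · by_cases h2 : u < 1
    · have h3 : (if u < 2 ^ 0 then √2 * ((2:ℝ) ^ 0) ^ (-(1/2:ℝ)) else 0) = √2 := by
        rw [if_pos (by simpa using h2)]
        simp
      have h4 := Finset.single_le_sum hnn (mem_range.2 (Nat.succ_pos (n + 1)))
      rw [h3] at h4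
      rw [max_eq_left h2.le, Real.one_rpow]
      have h5 : (1:ℝ) ≤ √2 := Real.one_le_sqrt.2 one_le_two
      linarith
    · push Not at h2
      obtain ⟨m, hm1, hm2⟩ := exists_nat_pow_near h2 (one_lt_two : (1:ℝ) < 2)
      have hm : m < n + 1 := by
        by_contra hno
        push Not at hno
        have : (2:ℝ) ^ (n + 1) ≤ 2 ^ m := pow_le_pow_right₀ one_le_two hno
        linarith
      have h4 := Finset.single_le_sum hnn (mem_range.2 (Nat.succ_lt_succ hm))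
      rw [if_pos hm2] at h4
      have h5 : √2 * ((2:ℝ) ^ (m + 1)) ^ (-(1/2:ℝ)) = ((2:ℝ) ^ m) ^ (-(1/2:ℝ)) := by
        rw [pow_succ, Real.mul_rpow (by positivity) (by norm_num), Real.sqrt_eq_rpow,
          mul_comm, mul_assoc, ← Real.rpow_add two_pos]
        norm_num
      rw [h5] at h4
      rw [max_eq_right h2]
      have h6 : u ^ (-(1/2:ℝ)) ≤ ((2:ℝ) ^ m) ^ (-(1/2:ℝ)) :=
        Real.rpow_le_rpow_of_nonpos (by positivity) hm1 (by norm_num)
      linarith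
  · push Not at h1
    have h2 : N ≤ u := by linarith
    have h3 : 1 ≤ u := by linarith
    rw [max_eq_right h3]
    have h4 : u ^ (-(1/2:ℝ)) ≤ N ^ (-(1/2:ℝ)) :=
      Real.rpow_le_rpow_of_nonpos hN0 h2 (by norm_num)
    have h5 := Finset.sum_nonneg hnn
    linarith

/-- **EMX.** -/
theorem emx : EMXStmt := by
  intro ι S wt U h N Lam hh hh1 hN hLam hwt hU hsum hlay
  obtain ⟨n, hn1, hn2⟩ := exists_nat_pow_near hN (one_lt_two : (1:ℝ) < 2)
  have hN0 : 0 < N := by linarith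
  obtain ⟨a, ha⟩ : ∃ a : ℝ, a = h - 1/2 := ⟨_, rfl⟩
  have ha0 : 0 < a := by rw [ha]; linarith
  have ha1 : a ≤ 1/2 := by rw [ha]; linarith
  obtain ⟨x, hx⟩ : ∃ x : ℝ, x = (2:ℝ) ^ a := ⟨_, rfl⟩
  have hs2 : √2 ≤ 3/2 := by
    rw [Real.sqrt_le_left (by norm_num)]
    norm_num
  -- the weights of the layers
  have hterm : ∀ j : ℕ, (√2 * ((2:ℝ) ^ j) ^ (-(1/2:ℝ))) * (Lam * (2 ^ j / N) ^ h) =
      √2 * Lam * N ^ (-h) * x ^ j := by
    intro j
    have e1 : ((2:ℝ) ^ j / N) ^ h = ((2:ℝ) ^ j) ^ h * N ^ (-h) := by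
      rw [Real.div_rpow (by positivity) hN0.le, Real.rpow_neg hN0.le, div_eq_mul_inv]
    have e2 : ((2:ℝ) ^ j) ^ (-(1/2:ℝ)) * ((2:ℝ) ^ j) ^ h = x ^ j := by
      rw [← Real.rpow_add (by positivity), hx, ← Real.rpow_natCast, ← Real.rpow_mul two_pos.le,
        ← Real.rpow_natCast, ← Real.rpow_mul two_pos.le, ha]
      ring_nf
    rw [e1]
    calc (√2 * ((2:ℝ) ^ j) ^ (-(1/2:ℝ))) * (Lam * (((2:ℝ) ^ j) ^ h * N ^ (-h)))
        = √2 * Lam * N ^ (-h) * (((2:ℝ) ^ j) ^ (-(1/2:ℝ)) * ((2:ℝ) ^ j) ^ h) := by ring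
      _ = _ := by rw [e2]
  have hmain : ∑ i ∈ S, wt i * (max 1 (U i)) ^ (-(1/2:ℝ)) ≤
      N ^ (-(1/2:ℝ)) + √2 * Lam * N ^ (-h) * ∑ j ∈ range (n + 2), x ^ j := by
    have h1 : ∑ i ∈ S, wt i * (max 1 (U i)) ^ (-(1/2:ℝ)) ≤
        ∑ i ∈ S, wt i * (N ^ (-(1/2:ℝ)) +
          ∑ j ∈ range (n + 2), if U i < 2 ^ j then √2 * ((2:ℝ) ^ j) ^ (-(1/2:ℝ)) else 0) :=
      Finset.sum_le_sum fun i hi =>
        mul_le_mul_of_nonneg_left (emx_pt n N (U i) hN hn2) (hwt i hi)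
    have h2 : ∑ i ∈ S, wt i * (N ^ (-(1/2:ℝ)) +
          ∑ j ∈ range (n + 2), if U i < 2 ^ j then √2 * ((2:ℝ) ^ j) ^ (-(1/2:ℝ)) else 0) =
        (∑ i ∈ S, wt i) * N ^ (-(1/2:ℝ)) +
          ∑ j ∈ range (n + 2), (√2 * ((2:ℝ) ^ j) ^ (-(1/2:ℝ))) *
            ∑ i ∈ S.filter (fun i => U i < 2 ^ j), wt i := by
      simp only [mul_add, Finset.sum_add_distrib]
      congr 1
      · rw [Finset.sum_mul]
      · simp only [Finset.mul_sum, Finset.sum_filter]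
        rw [Finset.sum_comm]
        refine Finset.sum_congr rfl fun j _ => Finset.sum_congr rfl fun i _ => ?_
        split_ifs
        · ring
        · ring
    have h3 : ∑ j ∈ range (n + 2), (√2 * ((2:ℝ) ^ j) ^ (-(1/2:ℝ))) *
            ∑ i ∈ S.filter (fun i => U i < 2 ^ j), wt i ≤
        ∑ j ∈ range (n + 2), √2 * Lam * N ^ (-h) * x ^ j := by
      refine Finset.sum_le_sum fun j _ => ?_
      rw [← hterm j]
      exact mul_le_mul_of_nonneg_left (hlay j) (by positivity)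
    have h4 : (∑ i ∈ S, wt i) * N ^ (-(1/2:ℝ)) ≤ 1 * N ^ (-(1/2:ℝ)) :=
      mul_le_mul_of_nonneg_right hsum (Real.rpow_pos_of_pos hN0 _).le
    rw [← Finset.mul_sum] at h3
    rw [h2] at h1
    linarith
  -- the geometric series
  have hlog : (1/2:ℝ) < Real.log 2 := by
    have := Real.log_two_gt_d9
    linarith
  have hx1 : a / 2 ≤ x - 1 := by
    have h1 : x = Real.exp (Real.log 2 * a) := by rw [hx, Real.rpow_def_of_pos two_pos]
    have h2 := Real.add_one_le_exp (Real.log 2 * a)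
    rw [← h1] at h2
    nlinarith
  have hx0 : 0 < x - 1 := by linarith
  have hx00 : 0 < x := by linarith
  have hgeom : ∑ j ∈ range (n + 2), x ^ j ≤ 4 / a * N ^ a := by
    rw [geom_sum_eq (by linarith : x ≠ 1), div_le_iff₀ hx0]
    have h1 : x ^ n ≤ N ^ a := by
      have : x ^ n = ((2:ℝ) ^ n) ^ a := by
        rw [hx, ← Real.rpow_natCast, ← Real.rpow_mul two_pos.le, ← Real.rpow_natCast,
          ← Real.rpow_mul two_pos.le, mul_comm]
      rw [this]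
      exact Real.rpow_le_rpow (by positivity) hn1 ha0.le
    have h2 : x ^ 2 ≤ 2 := by
      have : x ^ 2 = (2:ℝ) ^ (a * 2) := by
        rw [hx, ← Real.rpow_natCast, ← Real.rpow_mul two_pos.le]
        norm_num
      rw [this]
      calc (2:ℝ) ^ (a * 2) ≤ 2 ^ (1:ℝ) :=
            Real.rpow_le_rpow_of_exponent_le one_le_two (by linarith)
        _ = 2 := Real.rpow_one 2
    have h3 : x ^ (n + 2) ≤ 2 * N ^ a := by
      rw [pow_add, mul_comm]
      exact mul_le_mul h2 h1 (by positivity) two_pos.le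
    have h4 : 2 * N ^ a ≤ 4 / a * N ^ a * (x - 1) := by
      have h5 : 4 / a * N ^ a * (a / 2) ≤ 4 / a * N ^ a * (x - 1) :=
        mul_le_mul_of_nonneg_left hx1 (by positivity)
      have h6 : 4 / a * N ^ a * (a / 2) = 2 * N ^ a := by
        field_simp
        ring
      linarith
    linarith
  have hNh : N ^ (-h) * N ^ a = N ^ (-(1/2:ℝ)) := by
    rw [← Real.rpow_add hN0, ha]
    ring_nf
  have hNp : 0 < N ^ (-(1/2:ℝ)) := Real.rpow_pos_of_pos hN0 _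
  have h7 : √2 * Lam * N ^ (-h) * ∑ j ∈ range (n + 2), x ^ j ≤
      √2 * Lam * N ^ (-h) * (4 / a * N ^ a) :=
    mul_le_mul_of_nonneg_left hgeom (by positivity)
  have h8 : √2 * Lam * N ^ (-h) * (4 / a * N ^ a) = √2 * 4 * (Lam / a * N ^ (-(1/2:ℝ))) := by
    rw [← hNh]
    ring
  have hLa : 1 ≤ Lam / a := by
    rw [le_div_iff₀ ha0]
    linarith
  have hQ : 0 ≤ Lam / a * N ^ (-(1/2:ℝ)) := by positivity
  have h9 : N ^ (-(1/2:ℝ)) ≤ Lam / a * N ^ (-(1/2:ℝ)) := by nlinarith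
  have h10 : 20 / (h - 1/2) * Lam * N ^ (-(1/2:ℝ)) = 20 * (Lam / a * N ^ (-(1/2:ℝ))) := by
    rw [← ha]
    ring
  rw [h10]
  nlinarith
end Pool.FD
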