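import Pool.Agent.H84.FD.S2
import Pool.Agent.H82.FD.EMX

/-! # FD, row PAV: average over the windows of `|Phi_m|^2` -/

set_option autoImplicit false

namespace Pool.FD
open Finset Pool.K2 Pool.Agent.H24.FD

theorem pav_ex_sub (x y : ℝ) : ex (x - y) = ex x * (starRingEnd ℂ) (ex y) := by
  unfold ex
  rw [← Complex.exp_conj, ← Complex.exp_add]
  congr 1
  simp only [map_mul, Complex.conj_I, Complex.conj_ofReal, Complex.ofReal_sub, map_ofNat]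
  ring

theorem pav_sq {ι : Type} (S : Finset ι) (wt th : ι → ℝ) :
    (((‖∑ v ∈ S, (wt v : ℂ) * ex (th v)‖ ^ 2 : ℝ)) : ℂ) =
      ∑ z ∈ S ×ˢ S, ((wt z.1 * wt z.2 : ℝ) : ℂ) * ex (th z.1 - th z.2) := by
  have h1 : (((‖∑ v ∈ S, (wt v : ℂ) * ex (th v)‖ ^ 2 : ℝ)) : ℂ) =
      (∑ v ∈ S, (wt v : ℂ) * ex (th v)) * (starRingEnd ℂ) (∑ v ∈ S, (wt v : ℂ) * ex (th v)) := by
    rw [Complex.mul_conj']
    push_cast
    rfl
  rw [h1, map_sum, Finset.sum_mul_sum, Finset.sum_product]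
  refine Finset.sum_congr rfl fun v _ => Finset.sum_congr rfl fun v' _ => ?_
  rw [map_mul, Complex.conj_ofReal, pav_ex_sub]
  push_cast
  ring

/-- the mean over `i` of square norms of exponential sums -/
theorem pav_mean {ι : Type} (S : Finset ι) (wt : ι → ℝ) (hwt : ∀ v, 0 ≤ wt v) (K : ℕ)
    (th : ℕ → ι → ℝ) (ph : ℕ → ι × ι → ℝ) (hph : ∀ i, ∀ z : ι × ι, th i z.1 - th i z.2 = ph i z)
    (E : ι × ι → ℝ) (hE : ∀ z ∈ S ×ˢ S, ‖∑ i ∈ range K, ex (ph i z)‖ ≤ E z) :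
    ∑ i ∈ range K, ‖∑ v ∈ S, (wt v : ℂ) * ex (th i v)‖ ^ 2 ≤
      ∑ z ∈ S ×ˢ S, wt z.1 * wt z.2 * E z := by
  have h1 : ((∑ i ∈ range K, ‖∑ v ∈ S, (wt v : ℂ) * ex (th i v)‖ ^ 2 : ℝ) : ℂ) =
      ∑ z ∈ S ×ˢ S, ((wt z.1 * wt z.2 : ℝ) : ℂ) * ∑ i ∈ range K, ex (ph i z) := by
    rw [Complex.ofReal_sum]
    have h2 : ∀ i ∈ range K, (((‖∑ v ∈ S, (wt v : ℂ) * ex (th i v)‖ ^ 2 : ℝ)) : ℂ) =
        ∑ z ∈ S ×ˢ S, ((wt z.1 * wt z.2 : ℝ) : ℂ) * ex (ph i z) := by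
      intro i _
      rw [pav_sq]
      exact Finset.sum_congr rfl fun z _ => by rw [hph]
    rw [Finset.sum_congr rfl h2, Finset.sum_comm]
    exact Finset.sum_congr rfl fun z _ => by rw [Finset.mul_sum]
  have h3 : ∑ i ∈ range K, ‖∑ v ∈ S, (wt v : ℂ) * ex (th i v)‖ ^ 2 =
      ‖((∑ i ∈ range K, ‖∑ v ∈ S, (wt v : ℂ) * ex (th i v)‖ ^ 2 : ℝ) : ℂ)‖ := by
    rw [Complex.norm_real, Real.norm_of_nonneg]
    exact Finset.sum_nonneg fun i _ => by positivity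
  rw [h3, h1]
  refine (norm_sum_le _ _).trans (Finset.sum_le_sum fun z hz => ?_)
  rw [norm_mul, Complex.norm_real, Real.norm_of_nonneg (mul_nonneg (hwt _) (hwt _))]
  exact mul_le_mul_of_nonneg_left (hE z hz) (mul_nonneg (hwt _) (hwt _))

theorem sum4 (R : Finset ℕ) (F : ℕ → ℕ → ℕ → ℕ → ℝ) :
    ∑ n ∈ R, ∑ a ∈ R, ∑ n' ∈ R, ∑ a' ∈ R, F n a n' a' =
      ∑ z ∈ (R ×ˢ R) ×ˢ (R ×ˢ R), F z.1.1 z.1.2 z.2.1 z.2.2 := by
  simp only [Finset.sum_product]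

/-- **PAV.** -/
theorem pav : PAVStmt := by
  intro q p _ hp hPair h hh hh1
  obtain ⟨C0, hC0, hP⟩ := hPair
  have hhp : 0 < h - 1/2 := by linarith
  refine ⟨C0 * (20 / (h - 1/2)), by positivity, ?_⟩
  intro w s T M W b pw k Lam N1 N2 hsw hT hW hWt hLam hN1 hN2 hH1 hH2 m hm eps heps
  obtain ⟨R, hR⟩ : ∃ R : Finset ℕ, R = range (2 ^ w) := ⟨_, rfl⟩
  obtain ⟨S, hS⟩ : ∃ S : Finset (ℕ × ℕ), S = R ×ˢ R := ⟨_, rfl⟩
  obtain ⟨wt, hwtd⟩ : ∃ wt : ℕ × ℕ → ℝ, wt = fun v => pw v.1 v.2 := ⟨_, rfl⟩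
  have hwt : ∀ v, 0 ≤ wt v := fun v => by rw [hwtd]; exact hWt.1 _ _
  have hpb : (0:ℝ) < (p:ℝ) ^ b := by positivity
  have hTr : (0:ℝ) < T := by exact_mod_cast hT
  -- the two linear forms
  obtain ⟨A0, hA0⟩ : ∃ A0 : (ℕ × ℕ) × (ℕ × ℕ) → ℝ, A0 = fun z =>
      (m.1:ℝ) * ((z.1.1:ℝ) - z.2.1) + m.2 * ((z.1.2:ℝ) - z.2.2) := ⟨_, rfl⟩
  obtain ⟨B0, hB0⟩ : ∃ B0 : (ℕ × ℕ) × (ℕ × ℕ) → ℝ, B0 = fun z =>
      (k.1:ℝ) * (((z.1.1 / 2 ^ (w - s) : ℕ) : ℝ) - ((z.2.1 / 2 ^ (w - s) : ℕ) : ℝ)) +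
        k.2 * (((z.1.2 / 2 ^ (w - s) : ℕ) : ℝ) - ((z.2.2 / 2 ^ (w - s) : ℕ) : ℝ)) := ⟨_, rfl⟩
  have hpair := fun z : (ℕ × ℕ) × (ℕ × ℕ) => hP W hW w s (A0 z / T) (B0 z / (p:ℝ) ^ b) eps heps
  choose T0 hT0 using hpair
  refine ⟨(S ×ˢ S).sup T0, fun K hK J hJ => ?_⟩
  have hJ' : J ≥ max w s := by rw [max_eq_left hsw]; exact hJ
  -- the double sum
  obtain ⟨E, hEd⟩ : ∃ E : (ℕ × ℕ) × (ℕ × ℕ) → ℝ, E = fun z =>
      (max 1 (max |A0 z / T| |B0 z / (p:ℝ) ^ b|)) ^ (-(1/2:ℝ)) := ⟨_, rfl⟩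
  have hmean := pav_mean S wt hwt K
    (fun i v => yy q (J + i * W - w) * ((m.1:ℝ) * v.1 + m.2 * v.2) / T +
      yy p (J + i * W - s) / (p:ℝ) ^ b * (k.1 * ((v.1 / 2 ^ (w - s) : ℕ) : ℝ) +
        k.2 * ((v.2 / 2 ^ (w - s) : ℕ) : ℝ)))
    (fun i z => A0 z / T * yy q (J + i * W - w) + B0 z / (p:ℝ) ^ b * yy p (J + i * W - s))
    (fun i z => by
      rw [hA0, hB0]
      simp only
      ring)
    (fun z => (C0 * E z + eps) * K)
    (fun z hz => by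
      have h1 := hT0 z K ((Finset.le_sup hz).trans hK) J hJ'
      rw [hEd]
      exact h1)
  have hPh : ∀ i, Ph w s pw T k m (yy q (J + i * W - w)) (yy p (J + i * W - s) / (p:ℝ) ^ b) =
      ∑ v ∈ S, (wt v : ℂ) * ex (yy q (J + i * W - w) * ((m.1:ℝ) * v.1 + m.2 * v.2) / T +
      yy p (J + i * W - s) / (p:ℝ) ^ b * (k.1 * ((v.1 / 2 ^ (w - s) : ℕ) : ℝ) +
        k.2 * ((v.2 / 2 ^ (w - s) : ℕ) : ℝ))) := by
    intro i
    rw [hS, hR, hwtd, Finset.sum_product]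
    rfl
  simp only [hPh]
  refine hmean.trans ?_
  -- the total mass
  have htot : ∑ z ∈ S ×ˢ S, wt z.1 * wt z.2 ≤ 1 := by
    have h1 : ∑ z ∈ S ×ˢ S, wt z.1 * wt z.2 = (∑ v ∈ S, wt v) * ∑ v ∈ S, wt v := by
      rw [Finset.sum_mul_sum, Finset.sum_product]
    have h2 : ∑ v ∈ S, wt v ≤ 1 := by
      rw [hS, hR, hwtd, Finset.sum_product]
      exact hWt.2
    have h3 : 0 ≤ ∑ v ∈ S, wt v := Finset.sum_nonneg fun v _ => hwt v
    rw [h1]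
    nlinarith
  have hsplit : ∑ z ∈ S ×ˢ S, wt z.1 * wt z.2 * ((C0 * E z + eps) * K) =
      K * (C0 * (∑ z ∈ S ×ˢ S, wt z.1 * wt z.2 * E z) + (∑ z ∈ S ×ˢ S, wt z.1 * wt z.2) * eps) := by
    rw [Finset.mul_sum, Finset.sum_mul, ← Finset.sum_add_distrib, Finset.mul_sum]
    exact Finset.sum_congr rfl fun z _ => by ring
  rw [hsplit]
  obtain ⟨X, hX⟩ : ∃ X : ℝ, X = max (N1 / (p:ℝ) ^ b) (N2 * nm m) := ⟨_, rfl⟩
  rw [← hX]
  have hNb : 1 ≤ N1 / (p:ℝ) ^ b := by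
    rw [le_div_iff₀ hpb, one_mul]
    exact hN1
  -- the two applications of EMX
  have hkey : ∑ z ∈ S ×ˢ S, wt z.1 * wt z.2 * E z ≤ 20 / (h - 1/2) * Lam * X ^ (-(1/2:ℝ)) := by
    rcases le_total (N2 * nm m) (N1 / (p:ℝ) ^ b) with hc | hc
    · have hXe : X = N1 / (p:ℝ) ^ b := by rw [hX, max_eq_left hc]
      rw [hXe]
      refine le_trans (Finset.sum_le_sum fun z _ => ?_)
        (emx (S ×ˢ S) (fun z => wt z.1 * wt z.2) (fun z => |B0 z / (p:ℝ) ^ b|) h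
          (N1 / (p:ℝ) ^ b) Lam hh hh1 hNb hLam (fun z _ => mul_nonneg (hwt _) (hwt _))
          (fun z _ => abs_nonneg _) htot ?_)
      · refine mul_le_mul_of_nonneg_left ?_ (mul_nonneg (hwt _) (hwt _))
        rw [hEd]
        exact Real.rpow_le_rpow_of_nonpos (lt_max_of_lt_left one_pos)
          (max_le_max le_rfl (le_max_right _ _)) (by norm_num)
      · intro j
        have hD : (1:ℝ) ≤ 2 ^ j * (p:ℝ) ^ b := by
          have h1 : (1:ℝ) ≤ 2 ^ j := one_le_pow₀ one_le_two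
          have h2 : (1:ℝ) ≤ (p:ℝ) ^ b := one_le_pow₀ (by exact_mod_cast (by omega : 1 ≤ p))
          nlinarith
        have h1 := hH1 (2 ^ j * (p:ℝ) ^ b) hD
        rw [sum4] at h1
        rw [← hR, ← hS] at h1
        have h2 : (2:ℝ) ^ j * (p:ℝ) ^ b / N1 = 2 ^ j / (N1 / (p:ℝ) ^ b) := by
          rw [div_div_eq_mul_div]
        rw [h2] at h1
        rw [Finset.sum_filter]
        refine le_of_eq_of_le (Finset.sum_congr rfl fun z _ => ?_) h1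
        have h3 : |B0 z / (p:ℝ) ^ b| < 2 ^ j ↔ |B0 z| < 2 ^ j * (p:ℝ) ^ b := by
          rw [abs_div, abs_of_pos hpb, div_lt_iff₀ hpb]
        rw [hwtd]
        simp only [h3]
        rw [hB0]
    · by_cases hm0 : m = 0
      · exfalso
        rw [hm0] at hc
        have : nm (0 : ℤ × ℤ) = 0 := by simp [nm]
        rw [this, mul_zero] at hc
        linarith
      · have hXe : X = N2 * nm m := by rw [hX, max_eq_right hc]
        rw [hXe]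
        have hmb : m ∈ bx0 M := by
          unfold bx0
          rw [Finset.mem_filter]
          exact ⟨hm, hm0⟩
        refine le_trans (Finset.sum_le_sum fun z _ => ?_)
          (emx (S ×ˢ S) (fun z => wt z.1 * wt z.2) (fun z => |A0 z / T|) h
            (N2 * nm m) Lam hh hh1 (hNb.trans hc) hLam (fun z _ => mul_nonneg (hwt _) (hwt _))
            (fun z _ => abs_nonneg _) htot ?_)
        · refine mul_le_mul_of_nonneg_left ?_ (mul_nonneg (hwt _) (hwt _))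
          rw [hEd]
          exact Real.rpow_le_rpow_of_nonpos (lt_max_of_lt_left one_pos)
            (max_le_max le_rfl (le_max_left _ _)) (by norm_num)
        · intro j
          have h1 := hH2 m hmb (2 ^ j) (one_le_pow₀ one_le_two)
          rw [sum4] at h1
          rw [← hR, ← hS] at h1
          rw [Finset.sum_filter]
          refine le_of_eq_of_le (Finset.sum_congr rfl fun z _ => ?_) h1
          have h3 : |A0 z / T| < 2 ^ j ↔ |A0 z| < 2 ^ j * T := by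
            rw [abs_div, abs_of_pos hTr, div_lt_iff₀ hTr]
          rw [hwtd]
          simp only [h3]
          rw [hA0]
  refine mul_le_mul_of_nonneg_left ?_ (Nat.cast_nonneg K)
  have h4 : C0 * (∑ z ∈ S ×ˢ S, wt z.1 * wt z.2 * E z) ≤
      C0 * (20 / (h - 1/2) * Lam * X ^ (-(1/2:ℝ))) := mul_le_mul_of_nonneg_left hkey hC0.le
  have h5 : (∑ z ∈ S ×ˢ S, wt z.1 * wt z.2) * eps ≤ eps := by nlinarith
  have h6 : C0 * (20 / (h - 1/2) * Lam * X ^ (-(1/2:ℝ))) =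
      C0 * (20 / (h - 1/2)) * Lam * X ^ (-(1/2:ℝ)) := by ring
  linarith

end Pool.FD
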