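import Pool.Agent.H84.FD.S2
import Pool.Agent.H82.FD.PAV

/-! # FD, row F4S: average over the windows of `F4f` -/

set_option autoImplicit false

namespace Pool.FD
open Finset Pool.K2 Pool.Agent.H24.FD

/-- a two-sided geometric series -/
theorem geo_min (r Y : ℝ) (hr : 1 < r) (hY : 0 < Y) (N : ℕ) :
    ∑ i ∈ range N, min (r ^ i / Y) (Y / r ^ i) ≤ 2 * (1 + r) / (r - 1) := by
  obtain ⟨z, hz⟩ : ∃ z : ℕ → ℝ, z = fun i => r ^ i / Y := ⟨_, rfl⟩
  have hzp : ∀ i, 0 < z i := fun i => by rw [hz]; positivity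
  have hzs : ∀ i, z (i + 1) = r * z i := fun i => by rw [hz]; simp only; rw [pow_succ]; ring
  have hr1 : 0 < r - 1 := by linarith
  have hstep : ∀ i, min (r ^ i / Y) (Y / r ^ i) ≤
      2 * (1 + r) / (r - 1) * (z (i + 1) / (1 + z (i + 1)) - z i / (1 + z i)) := by
    intro i
    have hzi := hzp i
    have e1 : r ^ i / Y = z i := by rw [hz]
    have e2 : Y / r ^ i = 1 / z i := by rw [← e1, one_div_div]
    rw [e1, e2, hzs i]
    have h1 : r * z i / (1 + r * z i) - z i / (1 + z i) =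
        (r - 1) * z i / ((1 + r * z i) * (1 + z i)) := by
      have h2 : (1 + r * z i) ≠ 0 := by positivity
      have h3 : (1 + z i) ≠ 0 := by positivity
      field_simp
      ring
    rw [h1]
    have h4 : 2 * (1 + r) / (r - 1) * ((r - 1) * z i / ((1 + r * z i) * (1 + z i))) =
        2 * (1 + r) * z i / ((1 + r * z i) * (1 + z i)) := by
      field_simp
    rw [h4, le_div_iff₀ (by positivity)]
    rcases le_total (z i) 1 with hc | hc
    · have h5 : min (z i) (1 / z i) ≤ z i := min_le_left _ _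
      have h6 : (1 + r * z i) * (1 + z i) ≤ (1 + r) * 2 := by
        apply mul_le_mul _ _ (by positivity) (by positivity)
        · nlinarith
        · linarith
      calc min (z i) (1 / z i) * ((1 + r * z i) * (1 + z i)) ≤ z i * ((1 + r) * 2) :=
            mul_le_mul h5 h6 (by positivity) hzi.le
        _ = 2 * (1 + r) * z i := by ring
    · have h5 : min (z i) (1 / z i) ≤ 1 / z i := min_le_right _ _
      have h6 : (1 + r * z i) * (1 + z i) ≤ ((1 + r) * z i) * (2 * z i) := by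
        apply mul_le_mul _ _ (by positivity) (by positivity)
        · nlinarith
        · linarith
      calc min (z i) (1 / z i) * ((1 + r * z i) * (1 + z i)) ≤
            1 / z i * (((1 + r) * z i) * (2 * z i)) :=
            mul_le_mul h5 h6 (by positivity) (by positivity)
        _ = 2 * (1 + r) * z i := by field_simp
  refine (Finset.sum_le_sum fun i _ => hstep i).trans ?_
  rw [← Finset.mul_sum, Finset.sum_range_sub (fun i => z i / (1 + z i))]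
  have h7 : z N / (1 + z N) ≤ 1 := by
    rw [div_le_one (by have := hzp N; positivity)]
    linarith
  have h8 : 0 ≤ z 0 / (1 + z 0) := by have := hzp 0; positivity
  have h9 : 0 ≤ 2 * (1 + r) / (r - 1) := by positivity
  nlinarith

/-- one shell -/
theorem f4s_shell (q X N2 kap c : ℝ) (hq : 1 ≤ q) (hX : 1 ≤ X) (hN2 : (q ^ 3)⁻¹ ≤ N2)
    (hc : c = min kap (1/2 - kap)) (hc0 : 0 ≤ c) (i : ℕ) (hi : 1 ≤ i) :
    (q ^ i) ^ kap * (max X (N2 * q ^ (i - 1))) ^ (-(1/2:ℝ)) ≤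
      X ^ (kap - 1/2) * q ^ 2 * min ((q ^ c) ^ i / X ^ c) (X ^ c / (q ^ c) ^ i) := by
  have hq0 : 0 < q := by linarith
  have hX0 : 0 < X := by linarith
  obtain ⟨z, hz⟩ : ∃ z : ℝ, z = q ^ i / X := ⟨_, rfl⟩
  have hz0 : 0 < z := by rw [hz]; positivity
  have hc1 : c ≤ kap := by rw [hc]; exact min_le_left _ _
  have hc2 : c ≤ 1/2 - kap := by rw [hc]; exact min_le_right _ _
  have e1 : (q ^ c) ^ i / X ^ c = z ^ c := by
    rw [hz, Real.div_rpow (by positivity) hX0.le, ← Real.rpow_natCast, ← Real.rpow_natCast,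
      ← Real.rpow_mul hq0.le, ← Real.rpow_mul hq0.le, mul_comm]
  have e2 : X ^ c / (q ^ c) ^ i = z ^ (-c) := by
    rw [Real.rpow_neg hz0.le, ← e1, inv_div]
  rw [e1, e2]
  -- lower bound for the maximum
  have h1 : q ^ i / q ^ 4 ≤ N2 * q ^ (i - 1) := by
    obtain ⟨j, rfl⟩ : ∃ j, i = j + 1 := ⟨i - 1, by omega⟩
    have h2 : q ^ (j + 1) / q ^ 4 = (q ^ 3)⁻¹ * q ^ j := by
      field_simp
      ring
    rw [h2, Nat.add_sub_cancel]
    exact mul_le_mul_of_nonneg_right hN2 (by positivity)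
  have h3 : X * max 1 (z / q ^ 4) ≤ max X (N2 * q ^ (i - 1)) := by
    rw [mul_max_of_nonneg _ _ hX0.le, mul_one]
    refine max_le_max le_rfl ?_
    have : X * (z / q ^ 4) = q ^ i / q ^ 4 := by
      rw [hz]
      field_simp
    rw [this]
    exact h1
  have hm0 : 0 < max 1 (z / q ^ 4) := lt_max_of_lt_left one_pos
  have h4 : (max X (N2 * q ^ (i - 1))) ^ (-(1/2:ℝ)) ≤
      X ^ (-(1/2:ℝ)) * (max 1 (z / q ^ 4)) ^ (-(1/2:ℝ)) := by
    rw [← Real.mul_rpow hX0.le hm0.le]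
    exact Real.rpow_le_rpow_of_nonpos (by positivity) h3 (by norm_num)
  have h5 : (q ^ i) ^ kap = X ^ kap * z ^ kap := by
    rw [← Real.mul_rpow hX0.le hz0.le, hz]
    congr 1
    field_simp
  have h6 : (q ^ i) ^ kap * (max X (N2 * q ^ (i - 1))) ^ (-(1/2:ℝ)) ≤
      X ^ (kap - 1/2) * (z ^ kap * (max 1 (z / q ^ 4)) ^ (-(1/2:ℝ))) := by
    calc (q ^ i) ^ kap * (max X (N2 * q ^ (i - 1))) ^ (-(1/2:ℝ))
        ≤ (q ^ i) ^ kap * (X ^ (-(1/2:ℝ)) * (max 1 (z / q ^ 4)) ^ (-(1/2:ℝ))) :=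
          mul_le_mul_of_nonneg_left h4 (by positivity)
      _ = X ^ kap * X ^ (-(1/2:ℝ)) * (z ^ kap * (max 1 (z / q ^ 4)) ^ (-(1/2:ℝ))) := by
          rw [h5]; ring
      _ = _ := by rw [← Real.rpow_add hX0]; ring_nf
  refine h6.trans ?_
  rw [mul_assoc]
  refine mul_le_mul_of_nonneg_left ?_ (by positivity)
  have hq2 : (1:ℝ) ≤ q ^ 2 := one_le_pow₀ hq
  rcases le_total z 1 with hzc | hzc
  · have h7 : (max 1 (z / q ^ 4)) ^ (-(1/2:ℝ)) ≤ 1 :=
      Real.rpow_le_one_of_one_le_of_nonpos (le_max_left _ _) (by norm_num)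
    have h8 : z ^ kap ≤ z ^ c := Real.rpow_le_rpow_of_exponent_ge hz0 hzc hc1
    have h9 : z ^ kap ≤ z ^ (-c) :=
      Real.rpow_le_rpow_of_exponent_ge hz0 hzc (by linarith)
    calc z ^ kap * (max 1 (z / q ^ 4)) ^ (-(1/2:ℝ)) ≤ z ^ kap * 1 :=
          mul_le_mul_of_nonneg_left h7 (by positivity)
      _ = 1 * z ^ kap := by ring
      _ ≤ q ^ 2 * min (z ^ c) (z ^ (-c)) :=
          mul_le_mul hq2 (le_min h8 h9) (by positivity) (by positivity)
  · have h7 : (max 1 (z / q ^ 4)) ^ (-(1/2:ℝ)) ≤ (z / q ^ 4) ^ (-(1/2:ℝ)) :=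
      Real.rpow_le_rpow_of_nonpos (by positivity) (le_max_right _ _) (by norm_num)
    have h8 : (z / q ^ 4) ^ (-(1/2:ℝ)) = z ^ (-(1/2:ℝ)) * q ^ 2 := by
      rw [Real.div_rpow hz0.le (by positivity), Real.rpow_neg (by positivity : (0:ℝ) ≤ q ^ 4),
        div_inv_eq_mul]
      congr 1
      rw [show q ^ 4 = (q ^ 2) ^ 2 by ring, ← Real.sqrt_eq_rpow, Real.sqrt_sq (by positivity)]
    have h9 : z ^ kap * z ^ (-(1/2:ℝ)) = z ^ (kap - 1/2) := by
      rw [← Real.rpow_add hz0]; ring_nf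
    have h10 : z ^ (kap - 1/2) ≤ z ^ (-c) :=
      Real.rpow_le_rpow_of_exponent_le hzc (by linarith)
    have h11 : z ^ (kap - 1/2) ≤ z ^ c :=
      Real.rpow_le_rpow_of_exponent_le hzc (by linarith)
    calc z ^ kap * (max 1 (z / q ^ 4)) ^ (-(1/2:ℝ)) ≤ z ^ kap * (z ^ (-(1/2:ℝ)) * q ^ 2) := by
          rw [← h8]
          exact mul_le_mul_of_nonneg_left h7 (by positivity)
      _ = q ^ 2 * z ^ (kap - 1/2) := by rw [← h9]; ring
      _ ≤ q ^ 2 * min (z ^ c) (z ^ (-c)) :=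
          mul_le_mul_of_nonneg_left (le_min h11 h10) (by positivity)

/-- **F4S**, from RFR and SHS. -/
theorem f4s (hRFR : RFRStmt) (hSHS : SHSStmt) : F4SStmt := by
  intro q p hq hp hPair h kap hh hh1 hkap hkap2
  obtain ⟨C1, hC1, hpav⟩ := pav q p hq hp hPair h hh hh1
  have hqr : (2:ℝ) ≤ q := by exact_mod_cast hq
  obtain ⟨c, hc⟩ : ∃ c : ℝ, c = min kap (1/2 - kap) := ⟨_, rfl⟩
  have hc0 : 0 < c := by rw [hc]; exact lt_min hkap (by linarith)
  obtain ⟨r, hr⟩ : ∃ r : ℝ, r = (q:ℝ) ^ c := ⟨_, rfl⟩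
  have hr1 : 1 < r := by rw [hr]; exact Real.one_lt_rpow (by linarith) hc0
  obtain ⟨C2, hC2⟩ : ∃ C2 : ℝ, C2 = (q:ℝ) ^ 2 * (2 * (1 + r) / (r - 1)) := ⟨_, rfl⟩
  have hr0 : 0 < r - 1 := by linarith
  have hC20 : 0 ≤ C2 := by rw [hC2]; positivity
  refine ⟨C1 * (6400 * (1 + C2)), by positivity, ?_⟩
  intro w s t u W b pw om k Lam C0 N1 N2 hsw hW hWt hLam hC0 hN1 hN2 hH1 hH2 hom hReg eps heps
  have hq0 : 0 < q := by omega
  have hN20 : 0 < N2 := lt_of_lt_of_le (by positivity) hN2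
  have hpb : (0:ℝ) < (p:ℝ) ^ b := by positivity
  obtain ⟨X, hX⟩ : ∃ X : ℝ, X = N1 / (p:ℝ) ^ b := ⟨_, rfl⟩
  have hX1 : 1 ≤ X := by rw [hX, le_div_iff₀ hpb, one_mul]; exact hN1
  have hX0 : 0 < X := by linarith
  -- coefficients
  obtain ⟨cm, hcm⟩ : ∃ cm : ℤ × ℤ → ℝ, cm = fun m =>
      ‖omh (q ^ t * q ^ u) (rf (q ^ u) om) m.1 m.2‖ ^ 2 := ⟨_, rfl⟩
  have hcm0 : ∀ m, 0 ≤ cm m := fun m => by rw [hcm]; positivity
  obtain ⟨B, hB⟩ : ∃ B : Finset (ℤ × ℤ), B = bx (q ^ t * q ^ u) := ⟨_, rfl⟩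
  obtain ⟨Om, hOm⟩ : ∃ Om : ℝ, Om = ∑ m ∈ B, cm m := ⟨_, rfl⟩
  have hOm0 : 0 ≤ Om := by rw [hOm]; exact Finset.sum_nonneg fun m _ => hcm0 m
  -- the shells
  have hshell : ∑ m ∈ B, cm m * (max X (N2 * nm m)) ^ (-(1/2:ℝ)) ≤
      6400 * (1 + C2) * C0 ^ 2 * X ^ (kap - 1/2) := by
    have hreg := hRFR q t u kap C0 om hq hkap.le hom hReg (by linarith)
    have h1 := hSHS q (t + u) kap C0 (rf (q ^ u) om)
      (fun x => (max X (N2 * x)) ^ (-(1/2:ℝ))) hq hkap.le (by linarith)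
      (fun z1 z2 => hom _ _) hreg
      (fun x => Real.rpow_nonneg (le_max_of_le_left hX0.le) _)
      (fun x y hxy => Real.rpow_le_rpow_of_nonpos (lt_max_of_lt_left hX0)
        (max_le_max le_rfl (mul_le_mul_of_nonneg_left hxy hN20.le)) (by norm_num))
    rw [pow_add] at h1
    have h2 : ∑ m ∈ B, cm m * (max X (N2 * nm m)) ^ (-(1/2:ℝ)) =
        ∑ m ∈ bx (q ^ t * q ^ u), ‖omh (q ^ t * q ^ u) (rf (q ^ u) om) m.1 m.2‖ ^ 2 *
          (max X (N2 * nm m)) ^ (-(1/2:ℝ)) := by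
      rw [hB, hcm]
    rw [h2]
    refine h1.trans ?_
    have h3 : (max X (N2 * 0)) ^ (-(1/2:ℝ)) ≤ X ^ (kap - 1/2) := by
      rw [mul_zero, max_eq_left hX0.le]
      exact Real.rpow_le_rpow_of_exponent_le hX1 (by linarith)
    have h4 : ∑ i ∈ Icc 1 (t + u), ((q:ℝ) ^ i) ^ kap * (max X (N2 * (q:ℝ) ^ (i - 1))) ^ (-(1/2:ℝ)) ≤
        X ^ (kap - 1/2) * C2 := by
      have h5 : ∑ i ∈ Icc 1 (t + u),
          ((q:ℝ) ^ i) ^ kap * (max X (N2 * (q:ℝ) ^ (i - 1))) ^ (-(1/2:ℝ)) ≤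
          ∑ i ∈ Icc 1 (t + u), X ^ (kap - 1/2) * (q:ℝ) ^ 2 * min (r ^ i / X ^ c) (X ^ c / r ^ i) := by
        refine Finset.sum_le_sum fun i hi => ?_
        rw [hr]
        exact f4s_shell q X N2 kap c (by linarith) hX1 hN2 hc hc0.le i (Finset.mem_Icc.1 hi).1
      have hXc : 0 < X ^ c := Real.rpow_pos_of_pos hX0 _
      have hr00 : 0 < r := by linarith
      have h6 : ∑ i ∈ Icc 1 (t + u), X ^ (kap - 1/2) * (q:ℝ) ^ 2 * min (r ^ i / X ^ c) (X ^ c / r ^ i) ≤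
          ∑ i ∈ range (t + u + 1),
            X ^ (kap - 1/2) * (q:ℝ) ^ 2 * min (r ^ i / X ^ c) (X ^ c / r ^ i) := by
        refine Finset.sum_le_sum_of_subset_of_nonneg ?_ ?_
        · intro i hi
          have := (Finset.mem_Icc.1 hi).2
          exact Finset.mem_range.2 (by omega)
        · intro i _ _
          have : 0 ≤ min (r ^ i / X ^ c) (X ^ c / r ^ i) := le_min (by positivity) (by positivity)
          positivity
      rw [← Finset.mul_sum] at h5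
      rw [← Finset.mul_sum, ← Finset.mul_sum] at h6
      have h7 := geo_min r (X ^ c) hr1 hXc (t + u + 1)
      have h8 : X ^ (kap - 1/2) * (q:ℝ) ^ 2 * ∑ i ∈ range (t + u + 1), min (r ^ i / X ^ c) (X ^ c / r ^ i) ≤
          X ^ (kap - 1/2) * (q:ℝ) ^ 2 * (2 * (1 + r) / (r - 1)) :=
        mul_le_mul_of_nonneg_left h7 (by positivity)
      have h9 : X ^ (kap - 1/2) * C2 = X ^ (kap - 1/2) * (q:ℝ) ^ 2 * (2 * (1 + r) / (r - 1)) := by
        rw [hC2]; ring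
      rw [h9]
      exact h5.trans (h6.trans h8)
    have h10 : 6400 * C0 ^ 2 * ((max X (N2 * 0)) ^ (-(1/2:ℝ)) +
        ∑ i ∈ Icc 1 (t + u), ((q:ℝ) ^ i) ^ kap * (max X (N2 * (q:ℝ) ^ (i - 1))) ^ (-(1/2:ℝ))) ≤
        6400 * C0 ^ 2 * (X ^ (kap - 1/2) + X ^ (kap - 1/2) * C2) :=
      mul_le_mul_of_nonneg_left (add_le_add h3 h4) (by positivity)
    have h11 : 6400 * C0 ^ 2 * (X ^ (kap - 1/2) + X ^ (kap - 1/2) * C2) =
        6400 * (1 + C2) * C0 ^ 2 * X ^ (kap - 1/2) := by ring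
    rw [← h11]
    exact h10
  -- the average
  obtain ⟨eps', he'⟩ : ∃ eps' : ℝ, eps' = eps / (1 + Om) := ⟨_, rfl⟩
  have heps' : 0 < eps' := by rw [he']; positivity
  have hex : ∀ m : ℤ × ℤ, ∃ K0 : ℕ, m ∈ B → ∀ K ≥ K0, ∀ J ≥ w,
      ∑ i ∈ range K, ‖Ph w s pw (q ^ t) k m (yy q (J + i * W - w))
        (yy p (J + i * W - s) / (p:ℝ) ^ b)‖ ^ 2 ≤
      K * (C1 * Lam * (max X (N2 * nm m)) ^ (-(1/2:ℝ)) + eps') := by
    intro m
    by_cases hm : m ∈ B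
    · obtain ⟨K0, hK0⟩ := hpav w s (q ^ t) (q ^ t * q ^ u) W b pw k Lam N1 N2 hsw (by positivity)
        hW hWt hLam hN1 hN20 hH1 hH2 m (by rw [← hB]; exact hm) eps' heps'
      refine ⟨K0, fun _ => ?_⟩
      rw [hX]
      exact hK0
    · exact ⟨0, fun h => absurd h hm⟩
  choose K0 hK0 using hex
  refine ⟨B.sup K0, fun K hK J hJ => ?_⟩
  unfold F4f
  rw [Finset.sum_comm, ← hB]
  have h1 : ∀ m ∈ B, ∑ i ∈ range K, ‖omh (q ^ t * q ^ u) (rf (q ^ u) om) m.1 m.2‖ ^ 2 *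
      ‖Ph w s pw (q ^ t) k m (yy q (J + i * W - w)) (yy p (J + i * W - s) / (p:ℝ) ^ b)‖ ^ 2 ≤
      K * (C1 * Lam * (cm m * (max X (N2 * nm m)) ^ (-(1/2:ℝ))) + cm m * eps') := by
    intro m hm
    rw [← Finset.mul_sum]
    have h2 := hK0 m hm K ((Finset.le_sup hm).trans hK) J hJ
    have h3 : ‖omh (q ^ t * q ^ u) (rf (q ^ u) om) m.1 m.2‖ ^ 2 = cm m := by rw [hcm]
    rw [h3]
    calc cm m * _ ≤ cm m * (K * (C1 * Lam * (max X (N2 * nm m)) ^ (-(1/2:ℝ)) + eps')) :=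
          mul_le_mul_of_nonneg_left h2 (hcm0 m)
      _ = _ := by ring
  refine (Finset.sum_le_sum h1).trans ?_
  rw [← Finset.mul_sum, Finset.sum_add_distrib, ← Finset.mul_sum, ← Finset.sum_mul, ← hOm]
  refine mul_le_mul_of_nonneg_left ?_ (Nat.cast_nonneg K)
  have h4 : Om * eps' ≤ eps := by
    rw [he', mul_div_assoc', div_le_iff₀ (by positivity)]
    nlinarith
  have h5 : C1 * Lam * ∑ m ∈ B, cm m * (max X (N2 * nm m)) ^ (-(1/2:ℝ)) ≤
      C1 * Lam * (6400 * (1 + C2) * C0 ^ 2 * X ^ (kap - 1/2)) :=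
    mul_le_mul_of_nonneg_left hshell (by positivity)
  have h6 : C1 * (6400 * (1 + C2)) * Lam * C0 ^ 2 * (N1 / (p:ℝ) ^ b) ^ (kap - 1/2) =
      C1 * Lam * (6400 * (1 + C2) * C0 ^ 2 * X ^ (kap - 1/2)) := by
    rw [← hX]; ring
  rw [h6]
  linarith

end Pool.FD
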